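import Pool.Agent.H41.HYP.S7

set_option autoImplicit false

namespace Pool.HYP.MIN

open Polynomial Pool.HYP

variable {F : Type} [Field F]

/-- A monic polynomial scaled by `s` is `X^n` modulo `s`. -/
theorem scale_mod {R : Type} [CommRing R] (q : R[X]) (hq : q.Monic) (s : R) :
    ∃ B : R[X], q.scaleRoots s = X ^ q.natDegree + C s * B := by
  have h1 : C s ∣ q.scaleRoots s - X ^ q.natDegree := by
    rw [C_dvd_iff_dvd_coeff]
    intro i
    rw [coeff_sub, coeff_scaleRoots, coeff_X_pow]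
    rcases lt_trichotomy i q.natDegree with h | h | h
    · rw [if_neg (by omega), sub_zero]
      apply Dvd.dvd.mul_left
      exact dvd_pow_self s (by omega)
    · rw [if_pos h, h, hq.coeff_natDegree, Nat.sub_self, pow_zero, one_mul, sub_self]
      exact dvd_zero _
    · rw [if_neg (by omega), coeff_eq_zero_of_natDegree_lt h, zero_mul, sub_zero]
      exact dvd_zero _
  obtain ⟨B, hB⟩ := h1
  exact ⟨B, by rw [← hB]; ring⟩

theorem scale_comp {R : Type} [CommRing R] (q : R[X]) (s : R) :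
    (q.scaleRoots s).comp (C s * X) = C (s ^ q.natDegree) * q := by
  ext i
  rw [comp_C_mul_X_coeff, coeff_scaleRoots, coeff_C_mul]
  rcases Nat.lt_or_ge q.natDegree i with h | h
  · rw [coeff_eq_zero_of_natDegree_lt h]
    ring
  · rw [mul_assoc, ← pow_add, Nat.sub_add_cancel h]
    ring

theorem case_one (N : ℕ) (hN : 2 ≤ N) (P : F[X]) (hPi : Irreducible P) (d c : F[X])
    (hd : ¬ P ∣ d) (f B : F[X][X])
    (h : C (d ^ N) * f = (C d * X - C c) ^ N + C (P ^ 2) * B) : Sing P f := by
  obtain ⟨e, w, hew⟩ : IsCoprime d (P ^ 2) := by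
    apply IsCoprime.pow_right
    rcases (hPi.coprime_iff_not_dvd).mpr hd with h1
    exact h1.symm
  have hde : P ^ 2 ∣ e * d - 1 := ⟨-w, by rw [← hew]; ring⟩
  have h1 : C (P ^ 2) ∣ C ((e * d) ^ N) * f - f := by
    have h2 : P ^ 2 ∣ (e * d) ^ N - 1 := by
      have h3 := sub_dvd_pow_sub_pow (e * d) 1 N
      rw [one_pow] at h3
      exact hde.trans h3
    obtain ⟨v, hv⟩ := h2
    refine ⟨C v * f, ?_⟩
    have h3 : C ((e * d) ^ N) * f - f = C ((e * d) ^ N - 1) * f := by
      rw [C_sub, C_1]; ring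
    rw [h3, hv, C_mul]
    ring
  have h2 : C (P ^ 2) ∣ (C d * X - C c) ^ N - (C d * (X - C (e * c))) ^ N := by
    apply dvd_trans _ (sub_dvd_pow_sub_pow _ _ N)
    obtain ⟨v, hv⟩ := hde
    refine ⟨C (v * c), ?_⟩
    have h3 : (C d * X - C c) - (C d * (X - C (e * c))) = C ((e * d - 1) * c) := by
      simp only [C_mul, C_sub, C_1]; ring
    rw [h3, hv, ← C_mul]
    congr 1
    ring
  have h3 : C (P ^ 2) ∣ f - (X - C (e * c)) ^ 2 *
      (C ((e * d) ^ N) * (X - C (e * c)) ^ (N - 2)) := by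
    obtain ⟨u, hu⟩ := h1
    obtain ⟨v, hv⟩ := h2
    refine ⟨-u + C (e ^ N) * (v + B), ?_⟩
    have h4 : (X - C (e * c) : F[X][X]) ^ 2 * (C ((e * d) ^ N) * (X - C (e * c)) ^ (N - 2)) =
        C (e ^ N) * (C d * (X - C (e * c))) ^ N := by
      have h5 : (X - C (e * c) : F[X][X]) ^ N =
          (X - C (e * c)) ^ 2 * (X - C (e * c)) ^ (N - 2) := by
        rw [← pow_add]; congr 1; omega
      have h8 : (C ((e * d) ^ N) : F[X][X]) = C (e ^ N) * (C d) ^ N := by
        rw [mul_pow, C_mul, C_pow (a := d)]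
      rw [h8, mul_pow (C d), h5]
      ring
    rw [h4]
    have h6 : C ((e * d) ^ N) * f = C (e ^ N) * ((C d * X - C c) ^ N + C (P ^ 2) * B) := by
      rw [← h, mul_pow, C_mul]; ring
    have h7 : f = C ((e * d) ^ N) * f - C (P ^ 2) * u := by rw [← hu]; ring
    calc f - C (e ^ N) * (C d * (X - C (e * c))) ^ N
        = (C ((e * d) ^ N) * f - C (P ^ 2) * u) - C (e ^ N) * (C d * (X - C (e * c))) ^ N := by
          rw [← h7]
      _ = C (e ^ N) * ((C d * X - C c) ^ N - (C d * (X - C (e * c))) ^ N) +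
          C (e ^ N) * (C (P ^ 2) * B) - C (P ^ 2) * u := by rw [h6]; ring
      _ = _ := by rw [hv]; ring
  obtain ⟨K, hK⟩ := h3
  refine ⟨X - C (e * c), C ((e * d) ^ N) * (X - C (e * c)) ^ (N - 2), 0, K,
    monic_X_sub_C _, ?_, ?_⟩
  · have : Fact (Irreducible P) := ⟨hPi⟩
    rw [Polynomial.map_sub, map_X, map_C]
    exact irreducible_X_sub_C _
  · rw [mul_zero, mul_zero, add_zero, ← hK]
    ring

theorem min : MINStmt := by
  intro F _ _ g D h hg hD f hf hsm d hd hR P hPm hPi c f' hf' heq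
  have hfi : Fact (Irreducible P) := ⟨hPi⟩
  have hfm : f.Monic := hf.1
  have hfn : f.natDegree = 2 * g + 1 := hf.2.1
  have hN : f'.natDegree = f.natDegree := by
    have h1 := congrArg natDegree heq
    rw [natDegree_scaleRoots, natDegree_comp, natDegree_scaleRoots, natDegree_X_sub_C,
      mul_one] at h1
    exact h1.symm
  set N := f.natDegree with hNdef
  by_cases hPd : P ∣ d
  · -- `P` divides `d` exactly once
    obtain ⟨d₁, rfl⟩ := hPd
    have hd1 : ¬ P ∣ d₁ := by
      rintro ⟨e, rfl⟩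
      have h1 := hd P ⟨e, by ring⟩
      exact hPi.not_isUnit h1
    obtain ⟨B1, hB1⟩ := scale_mod f hfm (P * d₁)
    obtain ⟨B2, hB2⟩ := scale_mod f' hf' (P ^ 2)
    have hmkP : AdjoinRoot.mk P P = 0 := AdjoinRoot.mk_self
    have hc : P ∣ c := by
      have h1 := congrArg (Polynomial.map (AdjoinRoot.mk P)) heq
      rw [hB1, hB2, Polynomial.map_comp] at h1
      simp only [Polynomial.map_add, Polynomial.map_mul, Polynomial.map_pow, map_X, map_C,
        map_mul, map_pow, hmkP, Polynomial.map_sub, zero_mul, C_0, add_zero, pow_comp,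
        X_comp, ne_eq, OfNat.ofNat_ne_zero, not_false_eq_true,
        zero_pow] at h1
      have h2 := congrArg (Polynomial.eval 0) h1
      rw [eval_pow, eval_X, eval_pow, eval_sub, eval_X, eval_C, zero_pow (by omega)] at h2
      have h3 := (pow_eq_zero_iff (by omega : f'.natDegree ≠ 0)).mp h2.symm
      rw [zero_sub, neg_eq_zero, AdjoinRoot.mk_eq_zero] at h3
      exact h3
    obtain ⟨c₁, rfl⟩ := hc
    -- divide by `P`
    have hG : f.scaleRoots d₁ = (f'.scaleRoots P).comp (X - C c₁) := by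
      have h1 := congrArg (fun q : F[X][X] => q.comp (C P * X)) heq
      rw [mul_comm P d₁, scaleRoots_mul, scale_comp, natDegree_scaleRoots, sq, scaleRoots_mul,
        comp_assoc] at h1
      have h2 : (X - C (P * c₁) : F[X][X]).comp (C P * X) = (C P * X).comp (X - C c₁) := by
        simp only [sub_comp, X_comp, C_comp, mul_comp, C_mul]
        ring
      rw [h2, ← comp_assoc, scale_comp, natDegree_scaleRoots, mul_comp, C_comp, hN] at h1
      have h3 : (C (P ^ N) : F[X][X]) ≠ 0 := by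
        rw [Ne, C_eq_zero]
        exact pow_ne_zero _ hPi.ne_zero
      exact mul_left_cancel₀ h3 h1
    obtain ⟨B3, hB3⟩ := scale_mod f' hf' P
    have hk : ∃ b : AdjoinRoot P, f.map (AdjoinRoot.mk P) = (X - C b) ^ N := by
      have h1 := congrArg (fun q : F[X][X] => q.comp (C d₁ * X)) hG
      rw [scale_comp, hB3, comp_assoc] at h1
      have h2 := congrArg (Polynomial.map (AdjoinRoot.mk P)) h1
      simp only [add_comp, pow_comp, X_comp, mul_comp, C_comp, sub_comp, Polynomial.map_add,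
        Polynomial.map_mul, Polynomial.map_pow, Polynomial.map_sub, map_X, map_C, hmkP, C_0,
        zero_mul, add_zero, map_pow, hN] at h2
      have hd1k : AdjoinRoot.mk P d₁ ≠ 0 := by
        rw [Ne, AdjoinRoot.mk_eq_zero]; exact hd1
      refine ⟨(AdjoinRoot.mk P d₁)⁻¹ * AdjoinRoot.mk P c₁, ?_⟩
      have h3 : (C (AdjoinRoot.mk P d₁) * X - C (AdjoinRoot.mk P c₁) : (AdjoinRoot P)[X]) =
          C (AdjoinRoot.mk P d₁) * (X - C ((AdjoinRoot.mk P d₁)⁻¹ * AdjoinRoot.mk P c₁)) := by
        rw [mul_sub, ← C_mul, ← mul_assoc, mul_inv_cancel₀ hd1k, one_mul]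
      rw [h3, mul_pow] at h2
      have h4 : (C (AdjoinRoot.mk P d₁) : (AdjoinRoot P)[X]) ^ N ≠ 0 := by
        apply pow_ne_zero
        rw [Ne, C_eq_zero]; exact hd1k
      exact mul_left_cancel₀ h4 h2
    obtain ⟨b, hb⟩ := hk
    rcases hR P hPm hPi ⟨d₁, rfl⟩ with hT | hirr
    · -- `f` is `(x - c) γ` modulo `P`
      obtain ⟨_, _, hγm, hγn, hγi⟩ := hD.1 P hT
      have h1 := hf.2.2.2 P hT
      obtain ⟨E, hE⟩ := h1
      have h2 : (D.γ P).map (AdjoinRoot.mk P) ∣ f.map (AdjoinRoot.mk P) := by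
        have h3 : f = (X - C (D.c P)) * D.γ P + C P * E := by rw [← hE]; ring
        have h4 : f.map (AdjoinRoot.mk P) =
            (X - C (AdjoinRoot.mk P (D.c P))) * (D.γ P).map (AdjoinRoot.mk P) := by
          conv_lhs => rw [h3]
          simp only [Polynomial.map_add, Polynomial.map_mul, Polynomial.map_sub, map_X, map_C,
            hmkP, C_0, zero_mul, add_zero]
        rw [h4]
        exact dvd_mul_left _ _
      rw [hb] at h2
      have h3 := hγi.prime.dvd_of_dvd_pow h2
      have h4 := natDegree_le_of_dvd h3 (X_sub_C_ne_zero b)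
      rw [natDegree_X_sub_C, hγm.natDegree_map, hγn] at h4
      omega
    · rw [hb] at hirr
      have h1 : (X - C b : (AdjoinRoot P)[X]) ^ N = (X - C b) * (X - C b) ^ (N - 1) := by
        rw [← pow_succ']; congr 1; omega
      rcases hirr.isUnit_or_isUnit h1 with h2 | h2
      · exact not_isUnit_X_sub_C b h2
      · have h3 : IsUnit (X - C b : (AdjoinRoot P)[X]) := (isUnit_pow_iff (by omega)).mp h2
        exact not_isUnit_X_sub_C b h3
  · -- `P` does not divide `d`
    obtain ⟨B, hB⟩ := scale_mod f' hf' (P ^ 2)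
    apply hsm P hPm hPi
    apply case_one N (by omega) P hPi d c hPd f ((B.comp (X - C c)).comp (C d * X))
    have h1 := congrArg (fun q : F[X][X] => q.comp (C d * X)) heq
    rw [scale_comp, hB] at h1
    rw [← hNdef] at h1
    rw [h1]
    simp only [add_comp, pow_comp, X_comp, mul_comp, C_comp, sub_comp, hN]

end Pool.HYP.MIN
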