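import Pool.Agent.H41.HYP.S5

set_option autoImplicit false

namespace Pool.HYP.DLA

open Polynomial Pool.HYP

variable {F : Type} [Field F]

theorem finite_Plt [Finite F] (m : ℕ) : (Plt F m).Finite := by
  have e : Plt F m = ((Polynomial.degreeLT F m : Submodule F F[X]) : Set F[X]) := by
    ext p
    exact (Polynomial.mem_degreeLT (n := m) (f := p)).symm
  rw [e]
  have : Finite (Polynomial.degreeLT F m) :=
    Finite.of_equiv _ (Polynomial.degreeLTEquiv F m).symm.toEquiv
  exact Set.toFinite _

theorem ncard_Plt [Finite F] (m : ℕ) : (Plt F m).ncard = Nat.card F ^ m := by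
  have e : Plt F m = ((Polynomial.degreeLT F m : Submodule F F[X]) : Set F[X]) := by
    ext p
    exact (Polynomial.mem_degreeLT (n := m) (f := p)).symm
  rw [e, ← Nat.card_coe_set_eq]
  have h1 : Nat.card (Polynomial.degreeLT F m) = Nat.card (Fin m → F) :=
    Nat.card_congr (Polynomial.degreeLTEquiv F m).toEquiv
  have h2 : Nat.card (Fin m → F) = Nat.card F ^ m := by simp [Nat.card_fun]
  rw [← h2, ← h1]
  rfl

theorem dla : DLAStmt := by
  intro F _ _ p a M P f γ hM hchar hp hPm hPi hPM hγ hγi
  have hfp : Fact p.Prime := ⟨hp⟩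
  have hfi : Fact (Irreducible P) := ⟨hPi⟩
  have : ExpChar F p := ExpChar.prime hp
  have hcF : CharP F[X] p := inferInstance
  set S : Set F[X] := {A ∈ Plt F a | γ.map (AdjoinRoot.mk P) ∣
        (f + C ((M * A) ^ p)).map (AdjoinRoot.mk P)} with hS
  -- two members are congruent modulo P
  have hcong : ∀ A ∈ S, ∀ B ∈ S, P ∣ A - B := by
    intro A hA B hB
    have h1 : γ.map (AdjoinRoot.mk P) ∣ C (AdjoinRoot.mk P ((M * (A - B)) ^ p)) := by
      have h2 := dvd_sub hA.2 hB.2
      have h3 : (f + C ((M * A) ^ p)).map (AdjoinRoot.mk P) -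
          (f + C ((M * B) ^ p)).map (AdjoinRoot.mk P) =
          C (AdjoinRoot.mk P ((M * (A - B)) ^ p)) := by
        rw [← Polynomial.map_sub, ← Polynomial.map_C]
        congr 1
        rw [mul_sub, sub_pow_char, C_sub]
        ring
      rwa [h3] at h2
    have hγm : (γ.map (AdjoinRoot.mk P)).Monic := hγ.map _
    have hdeg : (γ.map (AdjoinRoot.mk P)).natDegree ≠ 0 := by
      intro h0
      have h2 := Polynomial.eq_one_of_monic_natDegree_zero hγm h0
      rw [h2] at hγi
      exact hγi.not_isUnit isUnit_one
    have h4 : AdjoinRoot.mk P ((M * (A - B)) ^ p) = 0 := by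
      by_contra hne
      have h5 := Polynomial.natDegree_le_of_dvd h1 (by
        rw [Ne, C_eq_zero]; exact hne)
      rw [natDegree_C] at h5
      omega
    rw [AdjoinRoot.mk_eq_zero] at h4
    have h6 := hPi.prime.dvd_of_dvd_pow h4
    rcases hPi.prime.dvd_or_dvd h6 with h7 | h7
    · exact absurd h7 hPM
    · exact h7
  rcases Set.eq_empty_or_nonempty S with h0 | ⟨A0, hA0⟩
  · rw [h0, Set.ncard_empty]
    exact Nat.zero_le _
  · -- the quotients by P
    have hPne : P ≠ 0 := hPm.ne_zero
    have hdiv : ∀ A ∈ S, ∃ B, A - A0 = P * B := fun A hA => hcong A hA A0 hA0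
    choose! q hq using hdiv
    have hmaps : ∀ A ∈ S, q A ∈ Plt F (a - min a P.natDegree) := by
      intro A hA
      change (q A).degree < _
      by_cases hz : q A = 0
      · rw [hz, degree_zero]
        exact WithBot.bot_lt_coe _
      · have h1 : (A - A0).degree < (a : WithBot ℕ) :=
          lt_of_le_of_lt (degree_sub_le _ _) (max_lt hA.1 hA0.1)
        rw [hq A hA, degree_mul, degree_eq_natDegree hPne, degree_eq_natDegree hz] at h1
        rw [degree_eq_natDegree hz]
        have h2 : P.natDegree + (q A).natDegree < a := by exact_mod_cast h1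
        have h3 : (q A).natDegree < a - min a P.natDegree := by omega
        exact_mod_cast h3
    have hinj : Set.InjOn q S := by
      intro A hA B hB hAB
      have h1 := hq A hA
      have h2 := hq B hB
      rw [hAB, ← h2] at h1
      exact sub_left_injective h1
    calc S.ncard = (q '' S).ncard := hinj.ncard_image.symm
      _ ≤ (Plt F (a - min a P.natDegree)).ncard := by
        apply Set.ncard_le_ncard _ (finite_Plt _)
        rintro _ ⟨A, hA, rfl⟩
        exact hmaps A hA
      _ = _ := ncard_Plt _

end Pool.HYP.DLA
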